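import Pool.Agent.Run7.h177.TA.Iface

/-!
# Project TA, piece PTS: infinitely many points over one number field
-/

set_option autoImplicit false

namespace Run7.h160.TA

open MvPolynomial Run7.h177.TA
open Pool.Agent.W602.GT (IsForm)
open Pool.Agent.Q103.AR (Points aeval_smul_form)
open scoped LinearAlgebra.Projectivization

/-- A field which is algebraic over `ℚ` has a `2`-adic absolute value. -/
theorem exists_abv (K : Type) [Field K] [CharZero K] [Algebra.IsAlgebraic ℚ K] :
    ∃ v : AbsoluteValue K ℝ, IsNonarchimedean v ∧ v 2 < 1 := by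
  have : Fact (Nat.Prime 2) := ⟨Nat.prime_two⟩
  let φ : K →ₐ[ℚ] PadicAlgCl 2 := IsAlgClosed.lift
  refine ⟨{ toFun := fun x => ‖φ x‖
            map_mul' := fun x y => by rw [map_mul, norm_mul]
            nonneg' := fun x => norm_nonneg _
            eq_zero' := fun x => by rw [norm_eq_zero, map_eq_zero]
            add_le' := fun x y => by rw [map_add]; exact norm_add_le _ _ }, ?_, ?_⟩
  · intro x y
    change ‖φ (x + y)‖ ≤ max ‖φ x‖ ‖φ y‖
    rw [map_add]
    exact PadicAlgCl.isNonarchimedean 2 _ _
  · change ‖φ 2‖ < 1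
    have h1 : φ 2 = (((2 : ℕ) : ℚ_[2]) : PadicAlgCl 2) := by
      rw [map_ofNat]
      norm_cast
    rw [h1, PadicAlgCl.norm_extends]
    exact Padic.norm_p_lt_one

/-- The value of a polynomial with coefficients in an intermediate field. -/
theorem eval_mem {k K τ : Type} [Field k] [Field K] [Algebra k K] (E : IntermediateField k K)
    (G : MvPolynomial τ K) (hG : ∀ m ∈ G.support, coeff m G ∈ E) (x : τ → K) (hx : ∀ j, x j ∈ E) :
    eval x G ∈ E := by
  rw [eval_eq]
  exact sum_mem fun m hm => mul_mem (hG m hm) (prod_mem fun j _ => pow_mem (hx j) _)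

theorem t_PTS (hA : S_ADI) : S_PTS := by
  classical
  intro k _ _ w n hw ι F Q hF hQ D hD
  have : Algebra.IsAlgebraic ℚ (AlgebraicClosure k) := Algebra.IsAlgebraic.trans ℚ k _
  obtain ⟨v, hv1, hv2⟩ := exists_abv (AlgebraicClosure k)
  obtain ⟨P, hM, hb, hP, hc, hq, h0, hinj⟩ := hA (AlgebraicClosure k) v hv1 hv2 w n hw ι _ _ D hD
  -- the field
  obtain ⟨cs, hcs⟩ : ∃ cs : Pl (AlgebraicClosure k) w → Finset (AlgebraicClosure k),
      ∀ G, ∀ m ∈ G.support, coeff m G ∈ cs G :=
    ⟨fun G => G.support.image fun m => coeff m G, fun G m hm => Finset.mem_image_of_mem _ hm⟩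
  obtain ⟨S, hS⟩ : ∃ S : Finset (AlgebraicClosure k), S = (Finset.univ.biUnion fun j => cs (D.a j)) ∪
      cs D.b ∪ (Finset.univ.biUnion fun i => cs (D.c i)) ∪ Finset.univ.image (P 0) := ⟨_, rfl⟩
  obtain ⟨E, hE⟩ : ∃ E : IntermediateField k (AlgebraicClosure k),
      E = IntermediateField.adjoin k (S : Set (AlgebraicClosure k)) := ⟨_, rfl⟩
  have hSE : ∀ x ∈ S, x ∈ E := fun x hx => by
    rw [hE]
    exact IntermediateField.subset_adjoin _ _ hx
  have : FiniteDimensional k E := by
    rw [hE]
    exact IntermediateField.finiteDimensional_adjoin fun x _ =>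
      (Algebra.IsAlgebraic.isAlgebraic x).isIntegral
  have : NumberField E := NumberField.of_module_finite k E
  have hPE : ∀ m j, P m j ∈ E := by
    intro m
    induction m with
    | zero =>
      intro j
      apply hSE
      rw [hS]
      simp
    | succ m ih =>
      intro j
      rw [hP]
      refine div_mem (eval_mem E _ (fun e he => hSE _ ?_) _ ih) (eval_mem E _ (fun e he => hSE _ ?_) _ ih)
      · rw [hS]
        simp only [Finset.mem_union, Finset.mem_biUnion, Finset.mem_univ, true_and]
        exact Or.inl (Or.inl (Or.inl ⟨j, hcs _ _ he⟩))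
      · rw [hS]
        simp only [Finset.mem_union]
        exact Or.inl (Or.inl (Or.inr (hcs _ _ he)))
  have hcE : ∀ m i, eval (P m) (D.c i) ∈ E := by
    intro m i
    refine eval_mem E _ (fun e he => hSE _ ?_) _ (hPE m)
    rw [hS]
    simp only [Finset.mem_union, Finset.mem_biUnion, Finset.mem_univ, true_and]
    exact Or.inl (Or.inr ⟨i, hcs _ _ he⟩)
  -- the points
  obtain ⟨x, hx⟩ : ∃ x : ℕ → Fin (n + 1) → E, ∀ m i, (x m i : AlgebraicClosure k) =
      eval (P m) (D.c i) := ⟨fun m i => ⟨_, hcE m i⟩, fun _ _ => rfl⟩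
  have hval : ∀ m (G : MvPolynomial (Fin (n + 1)) k), (aeval (x m) G : E) =
      eval (P m) (aeval D.c (map (algebraMap k (AlgebraicClosure k)) G)) := by
    intro m G
    have h1 : ((aeval (x m) G : E) : AlgebraicClosure k) =
        aeval (fun i => (x m i : AlgebraicClosure k)) G := by
      have := MvPolynomial.aeval_algebraMap_apply (AlgebraicClosure k) (x m) G
      exact this.symm
    rw [h1]
    have h2 : (fun i => (x m i : AlgebraicClosure k)) = fun i => eval (P m) (D.c i) :=
      funext fun i => hx m i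
    rw [h2, aeval_def, aeval_def, eval₂_map, eval₂_comp_left]
    congr 1
    ext c
    simp
  have hne0 : ∀ m, x m D.l0 ≠ 0 := by
    intro m h
    apply hc m
    rw [← hx, h]
    rfl
  have hne : ∀ m, x m ≠ 0 := fun m h => hne0 m (by rw [h]; rfl)
  refine ⟨E, inferInstance, inferInstance, inferInstance, ?_⟩
  have hrep : ∀ m, ∃ c : E, c ≠ 0 ∧ (Projectivization.mk E (x m) (hne m)).rep = fun i => c * x m i := by
    intro m
    obtain ⟨c, hc⟩ := Projectivization.exists_smul_eq_mk_rep E (x m) (hne m)
    exact ⟨c, c.ne_zero, by rw [← hc]; rfl⟩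
  refine Set.infinite_of_injective_forall_mem (f := fun m => Projectivization.mk E (x m) (hne m))
    ?_ ?_
  · intro m m' h
    apply hinj
    funext i
    have h1 : Projectivization.mk E (x m) (hne m) = Projectivization.mk E (x m') (hne m') := h
    rw [Projectivization.mk_eq_mk_iff'] at h1
    obtain ⟨a, ha⟩ := h1
    -- `a • x m' = x m`
    have h2 : ∀ j, a * x m' j = x m j := fun j => by rw [← ha]; rfl
    have h3 : ∀ m, (x m (D.l i) : AlgebraicClosure k) = x m D.l0 * (P m (some i) + D.κ i) := by
      intro m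
      rw [hx, hx, hD.cl]
      simp
    have h4 := congrArg (Subtype.val) (h2 (D.l i))
    have h5 := congrArg (Subtype.val) (h2 D.l0)
    have h6 : ((a * x m' (D.l i) : E) : AlgebraicClosure k) = a * x m' (D.l i) := rfl
    have h7 : ((a * x m' D.l0 : E) : AlgebraicClosure k) = a * x m' D.l0 := rfl
    rw [h6, h3, h3] at h4
    rw [h7] at h5
    have h8 : (x m D.l0 : AlgebraicClosure k) ≠ 0 := fun h => hne0 m (Subtype.ext h)
    have h9 : (x m D.l0 : AlgebraicClosure k) * (P m' (some i) + D.κ i) =
        x m D.l0 * (P m (some i) + D.κ i) := by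
      rw [← h4, ← h5]
      ring
    have h10 := mul_left_cancel₀ h8 h9
    exact (add_right_cancel h10).symm
  · intro m
    obtain ⟨c, hc0, hc⟩ := hrep m
    constructor
    · intro e
      obtain ⟨d, hd⟩ := hF e
      change aeval (Projectivization.mk E (x m) (hne m)).rep (F e) = 0
      rw [hc, aeval_smul_form hd]
      have h1 : aeval (x m) (F e) = 0 := by
        apply Subtype.ext
        rw [hval]
        obtain ⟨r, hr⟩ := hD.eqn e
        rw [hr, map_mul, hM, zero_mul]
        rfl
      rw [h1, mul_zero]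
    · intro h
      have h1 : aeval (Projectivization.mk E (x m) (hne m)).rep Q = 0 := h ()
      obtain ⟨d, hd⟩ := hQ
      rw [hc, aeval_smul_form hd] at h1
      rcases mul_eq_zero.mp h1 with h2 | h2
      · exact pow_ne_zero _ hc0 h2
      · apply hq m
        rw [← hval, h2]
        rfl

end Run7.h160.TA
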